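import Mathlib
import Pool.Agent.R553.HW.Basic

/-!
Clique minors in direct products, and general tools.
-/

set_option autoImplicit false

namespace Pool.Agent.K4H13.GP

open SimpleGraph Finset Pool.Agent.R553.HW

/-- the direct product -/
def direct {V W : Type} (G : SimpleGraph V) (H : SimpleGraph W) : SimpleGraph (V × W) where
  Adj x y := G.Adj x.1 y.1 ∧ H.Adj x.2 y.2
  symm := ⟨fun _ _ h => ⟨h.1.symm, h.2.symm⟩⟩
  loopless := ⟨fun _ h => h.1.ne rfl⟩

/-- the lexicographic product -/
def lex {V W : Type} (G : SimpleGraph V) (H : SimpleGraph W) : SimpleGraph (V × W) where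
  Adj x y := G.Adj x.1 y.1 ∨ (x.1 = y.1 ∧ H.Adj x.2 y.2)
  symm := ⟨fun _ _ h => h.imp (fun h => h.symm) (fun h => ⟨h.1.symm, h.2.symm⟩)⟩
  loopless := ⟨fun _ h => h.elim (fun h => h.ne rfl) (fun h => h.2.ne rfl)⟩

/-- the strong product -/
def strong {V W : Type} (G : SimpleGraph V) (H : SimpleGraph W) : SimpleGraph (V × W) where
  Adj x y := x ≠ y ∧ (x.1 = y.1 ∨ G.Adj x.1 y.1) ∧ (x.2 = y.2 ∨ H.Adj x.2 y.2)
  symm := ⟨fun _ _ h => ⟨h.1.symm, h.2.1.imp Eq.symm (fun h => h.symm),
    h.2.2.imp Eq.symm (fun h => h.symm)⟩⟩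
  loopless := ⟨fun _ h => h.1 rfl⟩

/-! ### tools -/

theorem mono_minor {V : Type} {G : SimpleGraph V} {m n : ℕ} (h : CMt G (Fin n)) (hmn : m ≤ n) :
    CMt G (Fin m) := CMt_of_card h (by simpa using hmn)

theorem le_minor {V ι : Type} {G G' : SimpleGraph V} (hG : G ≤ G') (h : CMt G ι) : CMt G' ι := by
  refine CMt_comp G' G (fun v => {v}) (fun v => conn_singleton _ v) ?_ ?_ h
  · intro v w hvw
    exact Set.disjoint_singleton.2 hvw
  · intro v w hvw
    exact ⟨v, rfl, w, rfl, hG hvw⟩

theorem iso_minor {V W ι : Type} {G : SimpleGraph V} {H : SimpleGraph W} (f : V → W)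
    (hf : Function.Injective f) (hadj : ∀ x y, G.Adj x y → H.Adj (f x) (f y))
    (h : CMt G ι) : CMt H ι := by
  refine CMt_comp H G (fun v => {f v}) (fun v => conn_singleton _ _) ?_ ?_ h
  · intro v w hvw
    exact Set.disjoint_singleton.2 (fun h => hvw (hf h))
  · intro v w hvw
    exact ⟨f v, rfl, f w, rfl, hadj _ _ hvw⟩

/-- images of connected sets -/
theorem conn_map {V W : Type} {G : SimpleGraph V} {H : SimpleGraph W} (f : V → W) (A : Set V)
    (hadj : ∀ x ∈ A, ∀ y ∈ A, G.Adj x y → H.Adj (f x) (f y))
    (h : (G.induce A).Connected) : (H.induce (f '' A)).Connected := by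
  let φ : G.induce A →g H.induce (f '' A) :=
    { toFun := fun x => ⟨f x.1, ⟨x.1, x.2, rfl⟩⟩
      map_rel' := fun {a b} hab => hadj _ a.2 _ b.2 hab }
  refine SimpleGraph.Connected.map φ ?_ h
  rintro ⟨_, ⟨x, hx, rfl⟩⟩
  exact ⟨⟨x, hx⟩, rfl⟩

theorem conn_two {V : Type} {G : SimpleGraph V} {x y : V} (h : G.Adj x y) :
    (G.induce ({x, y} : Set V)).Connected := induce_pair_connected_of_adj h

/-- a graph which is not `k`-colourable has a nonempty set of vertices inside which all degrees are
at least `k` -/
theorem exists_core {V : Type} [Finite V] (G : SimpleGraph V) (k : ℕ) (hk : ¬ G.Colorable k) :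
    ∃ S : Set V, S.Nonempty ∧ ∀ v ∈ S, k ≤ {y | y ∈ S ∧ G.Adj v y}.ncard := by
  classical
  have := Fintype.ofFinite V
  by_contra hcon
  push Not at hcon
  apply hk
  have key : ∀ n : ℕ, ∀ T : Finset V, T.card = n →
      ∃ c : V → Fin k, ∀ x ∈ T, ∀ y ∈ T, G.Adj x y → c x ≠ c y := by
    intro n
    induction n with
    | zero =>
      intro T hT
      rw [card_eq_zero] at hT
      subst hT
      rcases isEmpty_or_nonempty V with hV | hV
      · exact ⟨fun x => (hV.false x).elim, by simp⟩
      · obtain ⟨v, hv, hlt⟩ := hcon Set.univ Set.univ_nonempty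
        exact ⟨fun _ => ⟨0, by omega⟩, by simp⟩
    | succ n ih =>
      intro T hT
      have hne : (T : Set V).Nonempty := by
        rw [coe_nonempty, ← card_pos]
        omega
      obtain ⟨v, hv, hlt⟩ := hcon T hne
      rw [mem_coe] at hv
      obtain ⟨c, hc⟩ := ih (T.erase v) (by rw [card_erase_of_mem hv]; omega)
      have h1 : {y | y ∈ (T : Set V) ∧ G.Adj v y} = ((T.filter (fun y => G.Adj v y) : Finset V) : Set V) := by
        ext y
        simp
      rw [h1, Set.ncard_coe_finset] at hlt
      obtain ⟨a, ha⟩ : ∃ a : Fin k, a ∉ (T.filter (fun y => G.Adj v y)).image c := by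
        by_contra hcon2
        push Not at hcon2
        have h2 : (univ : Finset (Fin k)) ⊆ (T.filter (fun y => G.Adj v y)).image c :=
          fun a _ => hcon2 a
        have h3 := card_le_card h2
        rw [card_univ, Fintype.card_fin] at h3
        have h4 := card_image_le (s := T.filter (fun y => G.Adj v y)) (f := c)
        omega
      refine ⟨Function.update c v a, ?_⟩
      have hv1 : ∀ y ∈ T, G.Adj v y → a ≠ c y := by
        intro y hy hvy hay
        exact ha (mem_image.2 ⟨y, mem_filter.2 ⟨hy, hvy⟩, hay.symm⟩)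
      intro x hx y hy hxy
      by_cases hxv : x = v
      · subst hxv
        have hyx : y ≠ x := hxy.ne.symm
        rw [Function.update_self, Function.update_of_ne hyx]
        exact hv1 y hy hxy
      · by_cases hyv : y = v
        · subst hyv
          rw [Function.update_self, Function.update_of_ne hxv]
          exact (hv1 x hx hxy.symm).symm
        · rw [Function.update_of_ne hxv, Function.update_of_ne hyv]
          exact hc x (mem_erase.2 ⟨hxv, hx⟩) y (mem_erase.2 ⟨hyv, hy⟩) hxy
  obtain ⟨c, hc⟩ := key _ univ rfl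
  exact ⟨Coloring.mk c (fun {x y} hxy => hc x (mem_univ _) y (mem_univ _) hxy)⟩

/-- `k` distinct neighbours -/
theorem exists_nbrs {V : Type} [Finite V] (G : SimpleGraph V) (k : ℕ) (hk : ¬ G.Colorable k) :
    ∃ (v : V) (a : Fin k → V), Function.Injective a ∧ ∀ i, G.Adj v (a i) := by
  classical
  obtain ⟨S, ⟨v, hv⟩, h⟩ := exists_core G k hk
  have h1 := h v hv
  have := Fintype.ofFinite V
  have hfin : {y | y ∈ S ∧ G.Adj v y}.Finite := Set.toFinite _
  rw [Set.ncard_eq_toFinset_card _ hfin] at h1
  have h2 : Nonempty (Fin k ↪ {y | y ∈ S ∧ G.Adj v y}) := by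
    have := hfin.fintype
    apply Function.Embedding.nonempty_of_card_le
    rw [Fintype.card_fin]
    rw [Set.Finite.card_toFinset] at h1
    convert h1
  obtain ⟨e⟩ := h2
  exact ⟨v, fun i => (e i).1, fun i j hij => e.injective (Subtype.ext hij), fun i => (e i).2.2⟩

/-- **direct products**: stars with `k` edges in both factors give a clique minor of order `k + 1` -/
theorem direct_minor {V W : Type} (G : SimpleGraph V) (H : SimpleGraph W) (k : ℕ)
    (v : V) (a : Fin k → V) (ha : Function.Injective a) (hva : ∀ i, G.Adj v (a i))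
    (w : W) (b : Fin k → W) (hb : Function.Injective b) (hwb : ∀ i, H.Adj w (b i)) :
    CMt (direct G H) (Fin (k + 1)) := by
  classical
  rcases Nat.eq_zero_or_pos k with rfl | hk
  · refine ⟨fun _ => {(v, w)}, fun _ => conn_singleton _ _, ?_, ?_⟩
    · intro i j hij
      exact absurd (Fin.ext (by omega)) hij
    · intro i j hij
      exact absurd (Fin.ext (by omega)) hij
  have hPQ : ∀ i j, (direct G H).Adj (v, b i) (a j, w) := fun i j => ⟨hva j, (hwb i).symm⟩
  let z : Fin k := ⟨0, hk⟩
  have h : CMt (direct G H) (Option (Fin k)) := by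
    let f : Option (Fin k) → Set (V × W) := fun o => o.elim {(v, b z)}
      (fun i => if i = z then {(a z, w)} else {(v, b i), (a i, w)})
    have f0 : f none = {(v, b z)} := rfl
    have f1 : f (some z) = {(a z, w)} := by simp [f]
    have f2 : ∀ i, i ≠ z → f (some i) = {(v, b i), (a i, w)} := by
      intro i hi
      simp [f, hi]
    have hmem : ∀ i, (a i, w) ∈ f (some i) := by
      intro i
      by_cases hi : i = z
      · subst hi; rw [f1]; rfl
      · rw [f2 i hi]; simp
    refine ⟨f, ?_, ?_, ?_⟩
    · rintro (_ | i)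
      · rw [f0]; exact conn_singleton _ _
      · by_cases hi : i = z
        · subst hi; rw [f1]; exact conn_singleton _ _
        · rw [f2 i hi]; exact conn_two (hPQ i i)
    · -- disjointness
      have key : ∀ x, ∀ o, x ∈ f o → (x.1 = v ∧ x.2 = b (o.getD z) ∧ (o ≠ some z)) ∨
          (∃ i, o = some i ∧ x = (a i, w)) := by
        rintro ⟨x, y⟩ (_ | i) hx
        · rw [f0, Set.mem_singleton_iff, Prod.mk.injEq] at hx
          exact Or.inl ⟨hx.1, hx.2, by simp⟩
        · by_cases hi : i = z
          · subst hi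
            rw [f1, Set.mem_singleton_iff] at hx
            exact Or.inr ⟨_, rfl, hx⟩
          · rw [f2 i hi, Set.mem_insert_iff, Set.mem_singleton_iff] at hx
            rcases hx with hx | hx
            · rw [Prod.mk.injEq] at hx
              exact Or.inl ⟨hx.1, by simpa using hx.2, by simpa using hi⟩
            · exact Or.inr ⟨_, rfl, hx⟩
      intro o o' hoo
      rw [Set.disjoint_left]
      intro x hx hx'
      rcases key x o hx with ⟨h1, h2, h3⟩ | ⟨i, rfl, rfl⟩
      · rcases key x o' hx' with ⟨h1', h2', h3'⟩ | ⟨j, rfl, rfl⟩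
        · have h4 := hb (h2.symm.trans h2')
          apply hoo
          rcases o with _ | i
          · rcases o' with _ | j
            · rfl
            · simp at h4 h3'
              exact absurd h4.symm h3'
          · rcases o' with _ | j
            · simp at h4 h3
              exact absurd h4 h3
            · simpa using h4
        · exact (hva j).ne h1.symm
      · rcases key _ o' hx' with ⟨h1', h2', h3'⟩ | ⟨j, rfl, hj⟩
        · exact (hva i).ne h1'.symm
        · rw [Prod.mk.injEq] at hj
          exact hoo (by rw [ha hj.1])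
    · -- adjacency
      have adj1 : ∀ j : Fin k, ∃ u ∈ f none, ∃ v' ∈ f (some j), (direct G H).Adj u v' :=
        fun j => ⟨(v, b z), by rw [f0]; rfl, _, hmem j, hPQ z j⟩
      have adj2 : ∀ i j : Fin k, i ≠ z → ∃ u ∈ f (some i), ∃ v' ∈ f (some j),
          (direct G H).Adj u v' := by
        intro i j hi
        exact ⟨(v, b i), by rw [f2 i hi]; simp, _, hmem j, hPQ i j⟩
      have sw : ∀ o o' : Option (Fin k), (∃ u ∈ f o, ∃ v' ∈ f o', (direct G H).Adj u v') →
          ∃ u ∈ f o', ∃ v' ∈ f o, (direct G H).Adj u v' := by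
        rintro o o' ⟨u, hu, v', hv', h⟩
        exact ⟨v', hv', u, hu, h.symm⟩
      rintro (_ | i) (_ | j) hij
      · exact absurd rfl hij
      · exact adj1 j
      · exact sw _ _ (adj1 i)
      · by_cases hi : i = z
        · have hj : j ≠ z := by
            rintro rfl
            exact hij (by rw [hi])
          exact sw _ _ (adj2 j i hj)
        · exact adj2 i j hi
  exact CMt_of_card h (by simp)

theorem direct_had {V W : Type} [Finite V] [Finite W] (G : SimpleGraph V) (H : SimpleGraph W) :
    Had (direct G H) := by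
  intro k hk
  have hG : ¬ G.Colorable k := fun h => hk
    (h.of_hom ({ toFun := Prod.fst, map_rel' := fun {a b} hab => hab.1 } : direct G H →g G))
  have hH : ¬ H.Colorable k := fun h => hk
    (h.of_hom ({ toFun := Prod.snd, map_rel' := fun {a b} hab => hab.2 } : direct G H →g H))
  obtain ⟨v, a, ha, hva⟩ := exists_nbrs G k hG
  obtain ⟨w, b, hb, hwb⟩ := exists_nbrs H k hH
  exact direct_minor G H k v a ha hva w b hb hwb

end Pool.Agent.K4H13.GP
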