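import Mathlib
import Pool.Agent.K4H13.GP.Basic

/-!
Graphs with a biclique cover in which every vertex is in few bicliques.
-/

set_option autoImplicit false

namespace Pool.Agent.K4H13.GP

open SimpleGraph Finset Pool.Agent.R553.HW

/-- a complete bipartite subgraph with sides of size `k` gives a clique minor of order `k + 1` -/
theorem biclique_minor {V : Type} (G : SimpleGraph V) (k : ℕ) (hk : 0 < k) (P Q : Fin k → V)
    (hP : Function.Injective P) (hQ : Function.Injective Q) (hPQ : ∀ i j, G.Adj (P i) (Q j)) :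
    CMt G (Fin (k + 1)) := by
  classical
  let z : Fin k := ⟨0, hk⟩
  have h : CMt G (Option (Fin k)) := by
    let f : Option (Fin k) → Set V := fun o => o.elim {P z}
      (fun i => if i = z then {Q z} else {P i, Q i})
    have f0 : f none = {P z} := rfl
    have f1 : f (some z) = {Q z} := by simp [f]
    have f2 : ∀ i, i ≠ z → f (some i) = {P i, Q i} := by
      intro i hi
      simp [f, hi]
    have hmem : ∀ i, Q i ∈ f (some i) := by
      intro i
      by_cases hi : i = z
      · subst hi; rw [f1]; rfl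
      · rw [f2 i hi]; simp
    refine ⟨f, ?_, ?_, ?_⟩
    · rintro (_ | i)
      · rw [f0]; exact conn_singleton _ _
      · by_cases hi : i = z
        · subst hi; rw [f1]; exact conn_singleton _ _
        · rw [f2 i hi]; exact conn_two (hPQ i i)
    · -- disjointness
      have key : ∀ x, ∀ o, x ∈ f o → (x = P (o.getD z) ∧ (o ≠ some z)) ∨
          (∃ i, o = some i ∧ x = Q i) := by
        rintro x (_ | i) hx
        · rw [f0, Set.mem_singleton_iff] at hx
          exact Or.inl ⟨hx, by simp⟩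
        · by_cases hi : i = z
          · subst hi
            rw [f1, Set.mem_singleton_iff] at hx
            exact Or.inr ⟨_, rfl, hx⟩
          · rw [f2 i hi, Set.mem_insert_iff, Set.mem_singleton_iff] at hx
            rcases hx with hx | hx
            · exact Or.inl ⟨by simpa using hx, by simpa using hi⟩
            · exact Or.inr ⟨_, rfl, hx⟩
      intro o o' hoo
      rw [Set.disjoint_left]
      intro x hx hx'
      rcases key x o hx with ⟨h2, h3⟩ | ⟨i, rfl, rfl⟩
      · rcases key x o' hx' with ⟨h2', h3'⟩ | ⟨j, rfl, h5⟩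
        · have h4 := hP (h2.symm.trans h2')
          apply hoo
          rcases o with _ | i
          · rcases o' with _ | j
            · rfl
            · simp at h4 h3'
              exact absurd h4.symm h3'
          · rcases o' with _ | j
            · simp at h4 h3
              exact absurd h4 h3
            · simpa using h4
        · exact (hPQ _ j).ne (h2.symm.trans h5)
      · rcases key _ o' hx' with ⟨h2', h3'⟩ | ⟨j, rfl, hj⟩
        · exact (hPQ _ i).ne h2'.symm
        · exact hoo (by rw [hQ hj])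
    · -- adjacency
      have adj1 : ∀ j : Fin k, ∃ u ∈ f none, ∃ v' ∈ f (some j), G.Adj u v' :=
        fun j => ⟨P z, by rw [f0]; rfl, _, hmem j, hPQ z j⟩
      have adj2 : ∀ i j : Fin k, i ≠ z → ∃ u ∈ f (some i), ∃ v' ∈ f (some j),
          G.Adj u v' := by
        intro i j hi
        exact ⟨P i, by rw [f2 i hi]; simp, _, hmem j, hPQ i j⟩
      have sw : ∀ o o' : Option (Fin k), (∃ u ∈ f o, ∃ v' ∈ f o', G.Adj u v') →
          ∃ u ∈ f o', ∃ v' ∈ f o, G.Adj u v' := by
        rintro o o' ⟨u, hu, v', hv', h⟩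
        exact ⟨v', hv', u, hu, h.symm⟩
      rintro (_ | i) (_ | j) hij
      · exact absurd rfl hij
      · exact adj1 j
      · exact sw _ _ (adj1 i)
      · by_cases hi : i = z
        · have hj : j ≠ z := by
            rintro rfl
            exact hij (by rw [hi])
          exact sw _ _ (adj2 j i hj)
        · exact adj2 i j hi
  exact CMt_of_card h (by simp)

/-- a graph in which every edge is owned by one of its ends, and every vertex owns at most `d`
edges, is `(2 d + 1)`-colourable -/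
theorem own_colorable {I : Type} [Finite I] (R : SimpleGraph I) (d : ℕ) (own : I → Finset I)
    (h1 : ∀ v, (own v).card ≤ d) (h2 : ∀ v w, R.Adj v w → w ∈ own v ∨ v ∈ own w) :
    R.Colorable (2 * d + 1) := by
  classical
  have := Fintype.ofFinite I
  by_contra hcon
  obtain ⟨S', ⟨v0, hv0⟩, hS'⟩ := exists_core R _ hcon
  set S : Finset I := S'.toFinset with hS
  have hmem : ∀ v, v ∈ S ↔ v ∈ S' := fun v => Set.mem_toFinset
  have hdeg : ∀ v ∈ S, 2 * d + 1 ≤ (S.filter (fun y => R.Adj v y)).card := by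
    intro v hv
    refine (hS' v ((hmem v).1 hv)).trans (le_of_eq ?_)
    rw [← Set.ncard_coe_finset]
    congr 1
    ext y
    simp [hmem]
  have hsum : S.card * (2 * d + 1) ≤ ∑ v ∈ S, (S.filter (fun y => R.Adj v y)).card := by
    calc S.card * (2 * d + 1) = ∑ _v ∈ S, (2 * d + 1) := by rw [sum_const, smul_eq_mul]
      _ ≤ _ := sum_le_sum hdeg
  have hle : ∀ v ∈ S, (S.filter (fun y => R.Adj v y)).card ≤
      (S.filter (fun y => y ∈ own v)).card + (S.filter (fun y => v ∈ own y)).card := by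
    intro v _
    rw [← card_union_add_card_inter]
    refine le_trans (card_le_card ?_) (Nat.le_add_right _ _)
    intro y hy
    rw [mem_filter] at hy
    rw [mem_union, mem_filter, mem_filter]
    rcases h2 v y hy.2 with h | h
    · exact Or.inl ⟨hy.1, h⟩
    · exact Or.inr ⟨hy.1, h⟩
  have hswap : ∑ v ∈ S, (S.filter (fun y => v ∈ own y)).card =
      ∑ y ∈ S, (S.filter (fun v => v ∈ own y)).card := by
    simp only [card_filter]
    exact sum_comm
  have hown : ∑ v ∈ S, (S.filter (fun y => y ∈ own v)).card ≤ S.card * d := by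
    calc ∑ v ∈ S, (S.filter (fun y => y ∈ own v)).card ≤ ∑ _v ∈ S, d := by
          refine sum_le_sum fun v _ => le_trans (card_le_card ?_) (h1 v)
          intro y hy
          exact (mem_filter.1 hy).2
      _ = S.card * d := by rw [sum_const, smul_eq_mul]
  have h3 : ∑ v ∈ S, (S.filter (fun y => R.Adj v y)).card ≤ S.card * d + S.card * d := by
    refine (sum_le_sum hle).trans ?_
    rw [sum_add_distrib, hswap]
    exact add_le_add hown hown
  have h4 : 0 < S.card := card_pos.2 ⟨v0, (hmem v0).2 hv0⟩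
  nlinarith

/-- the bicliques `A i, B i` cover the edges of `G`, and every vertex is in at most `r` of them -/
structure Cover {V I : Type} (G : SimpleGraph V) (A B : I → Set V) (r : ℕ) : Prop where
  sub : ∀ i, ∀ x ∈ A i, ∀ y ∈ B i, G.Adj x y
  cov : ∀ x y, G.Adj x y → ∃ i, (x ∈ A i ∧ y ∈ B i) ∨ (y ∈ A i ∧ x ∈ B i)
  loc : ∀ x, {i | x ∈ A i ∨ x ∈ B i}.ncard ≤ r

/-- the colouring of the bicliques -/
theorem cover_classes {V I : Type} [Finite V] [Finite I] {G : SimpleGraph V} {A B : I → Set V}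
    {r m : ℕ} (hc : Cover G A B r) (hm : ∀ i, (A i).ncard < m ∨ (B i).ncard < m) :
    ∃ c : I → Fin (2 * ((r - 1) * (m - 1)) + 1), ∀ x v w, x ∈ A v → x ∈ B w →
      (c v ≠ c w ∨ (¬ (A v).ncard < m ∧ (A w).ncard < m)) := by
  classical
  have := Fintype.ofFinite V
  have := Fintype.ofFinite I
  have hne : ∀ x v w, x ∈ A v → x ∈ B w → v ≠ w := by
    rintro x v w hx hx' rfl
    exact (hc.sub v x hx x hx').ne rfl
  have hB : ∀ x v, x ∈ A v → ((univ : Finset I).filter (fun w => x ∈ B w)).card ≤ r - 1 := by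
    intro x v hx
    have h1 := hc.loc x
    have h2 : ((univ : Finset I).filter (fun w => x ∈ A w ∨ x ∈ B w)).card ≤ r := by
      rw [← Set.ncard_coe_finset]
      convert h1
      ext i
      simp
    have h3 : insert v ((univ : Finset I).filter (fun w => x ∈ B w)) ⊆
        (univ : Finset I).filter (fun w => x ∈ A w ∨ x ∈ B w) := by
      intro i hi
      rw [mem_insert, mem_filter] at hi
      rw [mem_filter]
      rcases hi with rfl | hi
      · exact ⟨mem_univ _, Or.inl hx⟩
      · exact ⟨mem_univ _, Or.inr hi.2⟩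
    have h4 := card_le_card h3
    rw [card_insert_of_notMem (by
      rw [mem_filter]
      rintro ⟨-, h⟩
      exact hne x v v hx h rfl)] at h4
    omega
  have hA : ∀ x w, x ∈ B w → ((univ : Finset I).filter (fun v => x ∈ A v)).card ≤ r - 1 := by
    intro x v hx
    have h1 := hc.loc x
    have h2 : ((univ : Finset I).filter (fun w => x ∈ A w ∨ x ∈ B w)).card ≤ r := by
      rw [← Set.ncard_coe_finset]
      convert h1
      ext i
      simp
    have h3 : insert v ((univ : Finset I).filter (fun w => x ∈ A w)) ⊆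
        (univ : Finset I).filter (fun w => x ∈ A w ∨ x ∈ B w) := by
      intro i hi
      rw [mem_insert, mem_filter] at hi
      rw [mem_filter]
      rcases hi with rfl | hi
      · exact ⟨mem_univ _, Or.inr hx⟩
      · exact ⟨mem_univ _, Or.inl hi.2⟩
    have h4 := card_le_card h3
    rw [card_insert_of_notMem (by
      rw [mem_filter]
      rintro ⟨-, h⟩
      exact hne x v v h hx rfl)] at h4
    omega
  let own : I → Finset I := fun v => if (A v).ncard < m then
    (A v).toFinset.biUnion (fun x => univ.filter (fun w => x ∈ B w)) else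
    (B v).toFinset.biUnion (fun x => univ.filter (fun w => x ∈ A w))
  have hown : ∀ v, (own v).card ≤ (r - 1) * (m - 1) := by
    intro v
    by_cases h : (A v).ncard < m
    · simp only [own, if_pos h]
      refine (card_biUnion_le_card_mul _ _ (r - 1) ?_).trans ?_
      · intro x hx
        exact hB x v (Set.mem_toFinset.1 hx)
      · rw [Set.ncard_eq_toFinset_card'] at h
        rw [mul_comm]
        exact Nat.mul_le_mul_left _ (by omega)
    · simp only [own, if_neg h]
      have h' : (B v).ncard < m := (hm v).resolve_left h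
      refine (card_biUnion_le_card_mul _ _ (r - 1) ?_).trans ?_
      · intro x hx
        exact hA x v (Set.mem_toFinset.1 hx)
      · rw [Set.ncard_eq_toFinset_card'] at h'
        rw [mul_comm]
        exact Nat.mul_le_mul_left _ (by omega)
  let R : SimpleGraph I :=
    { Adj := fun v w => v ≠ w ∧ (w ∈ own v ∨ v ∈ own w)
      symm := ⟨fun _ _ h => ⟨h.1.symm, h.2.symm⟩⟩
      loopless := ⟨fun _ h => h.1 rfl⟩ }
  obtain ⟨c⟩ := own_colorable R _ own hown (fun v w h => h.2)
  refine ⟨c, ?_⟩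
  intro x v w hx hx'
  by_cases h1 : (A v).ncard < m
  · left
    refine c.valid (v := v) (w := w) ⟨hne x v w hx hx', Or.inl ?_⟩
    simp only [own, if_pos h1, mem_biUnion, mem_filter, mem_univ, true_and]
    exact ⟨x, Set.mem_toFinset.2 hx, hx'⟩
  · by_cases h2 : (A w).ncard < m
    · exact Or.inr ⟨h1, h2⟩
    · left
      refine c.valid (v := v) (w := w) ⟨hne x v w hx hx', Or.inr ?_⟩
      simp only [own, if_neg h2, mem_biUnion, mem_filter, mem_univ, true_and]
      exact ⟨x, Set.mem_toFinset.2 hx', hx⟩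

/-- independent families of sets (counting) -/
theorem exists_family (r q k : ℕ) (h : (2 * q : ℝ) ^ r * (1 - (1 / 2 : ℝ) ^ r) ^ k < 1) :
    ∃ F : Fin k → Fin q → Bool, ∀ (s : Fin r → Fin q) (b : Fin r → Bool),
      (∀ i j, s i = s j → b i = b j) → ∃ a, ∀ i, F a (s i) = b i := by
  classical
  by_contra hcon
  push Not at hcon
  -- the bad functions of one pattern
  let M : (Fin r → Fin q) × (Fin r → Bool) → Finset (Fin q → Bool) := fun p =>
    univ.filter (fun v => ∀ i, v (p.1 i) = p.2 i)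
  let Bad : (Fin r → Fin q) × (Fin r → Bool) → Finset (Fin k → Fin q → Bool) := fun p =>
    Fintype.piFinset (fun _ => (M p)ᶜ)
  let Pat : Finset ((Fin r → Fin q) × (Fin r → Bool)) :=
    univ.filter (fun p => ∀ i j, p.1 i = p.1 j → p.2 i = p.2 j)
  have hcov : (univ : Finset (Fin k → Fin q → Bool)) ⊆ Pat.biUnion Bad := by
    intro F _
    obtain ⟨s, b, hsb, hF⟩ := hcon F
    rw [mem_biUnion]
    refine ⟨(s, b), by simpa [Pat] using hsb, ?_⟩
    rw [Fintype.mem_piFinset]
    intro a
    rw [mem_compl, mem_filter]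
    rintro ⟨-, h⟩
    obtain ⟨i, hi⟩ := hF a
    exact hi (h i)
  have hM : ∀ p ∈ Pat, 2 ^ q ≤ (M p).card * 2 ^ r := by
    intro p hp
    rw [mem_filter] at hp
    have hp := hp.2
    let f : (Fin q → Bool) → {v // v ∈ M p} × (Fin r → Bool) := fun v =>
      (⟨fun j => if h : ∃ i, p.1 i = j then p.2 h.choose else v j, by
        rw [mem_filter]
        refine ⟨mem_univ _, fun i => ?_⟩
        have h : ∃ i', p.1 i' = p.1 i := ⟨i, rfl⟩
        exact (dif_pos h).trans (hp _ _ h.choose_spec)⟩, fun i => v (p.1 i))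
    have hf : Function.Injective f := by
      intro v v' hvv
      rw [Prod.mk.injEq, Subtype.mk.injEq] at hvv
      funext j
      by_cases h : ∃ i, p.1 i = j
      · obtain ⟨i, rfl⟩ := h
        exact congrFun hvv.2 i
      · have := congrFun hvv.1 j
        rwa [dif_neg h, dif_neg h] at this
    have := Fintype.card_le_of_injective f hf
    simpa using this
  have hbad : ∀ p ∈ Pat, ((Bad p).card : ℝ) ≤ (2 ^ q : ℝ) ^ k * (1 - (1 / 2 : ℝ) ^ r) ^ k := by
    intro p hp
    have h1 : (Bad p).card = ((M p)ᶜ).card ^ k := by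
      rw [Fintype.card_piFinset, prod_const, card_univ, Fintype.card_fin]
    rw [h1, Nat.cast_pow, ← mul_pow]
    apply pow_le_pow_left₀ (by positivity)
    rw [card_compl, Nat.cast_sub (card_le_univ _)]
    have h2 : Fintype.card (Fin q → Bool) = 2 ^ q := by simp
    rw [h2]
    have h3 : (2 ^ q : ℝ) ≤ (M p).card * 2 ^ r := by exact_mod_cast hM p hp
    have h4 : (2 ^ q : ℝ) * (1 / 2 : ℝ) ^ r ≤ (M p).card := by
      rw [one_div, inv_pow, ← div_eq_mul_inv, div_le_iff₀ (by positivity)]
      exact h3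
    push_cast
    linarith
  have hcard : ((2 ^ q : ℝ)) ^ k ≤ (2 * q : ℝ) ^ r * ((2 ^ q : ℝ) ^ k * (1 - (1 / 2 : ℝ) ^ r) ^ k) := by
    have h1 : ((2 ^ q : ℝ)) ^ k = ((univ : Finset (Fin k → Fin q → Bool)).card : ℝ) := by
      rw [card_univ]
      simp
    have h0 : (0 : ℝ) ≤ 1 - (1 / 2 : ℝ) ^ r := by
      have : (1 / 2 : ℝ) ^ r ≤ 1 := pow_le_one₀ (by norm_num) (by norm_num)
      linarith
    calc ((2 ^ q : ℝ)) ^ k = ((univ : Finset (Fin k → Fin q → Bool)).card : ℝ) := h1
      _ ≤ ((Pat.biUnion Bad).card : ℝ) := by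
          exact_mod_cast card_le_card hcov
      _ ≤ ((∑ p ∈ Pat, (Bad p).card : ℕ) : ℝ) := by exact_mod_cast card_biUnion_le
      _ = ∑ p ∈ Pat, ((Bad p).card : ℝ) := by push_cast; rfl
      _ ≤ ∑ _p ∈ Pat, ((2 ^ q : ℝ) ^ k * (1 - (1 / 2 : ℝ) ^ r) ^ k) := sum_le_sum hbad
      _ = (Pat.card : ℝ) * ((2 ^ q : ℝ) ^ k * (1 - (1 / 2 : ℝ) ^ r) ^ k) := by
          rw [sum_const, nsmul_eq_mul]
      _ ≤ (2 * q : ℝ) ^ r * ((2 ^ q : ℝ) ^ k * (1 - (1 / 2 : ℝ) ^ r) ^ k) := by
          refine mul_le_mul_of_nonneg_right ?_ (by positivity)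
          have h2 : Pat.card ≤ (2 * q) ^ r := by
            refine (card_le_univ _).trans (le_of_eq ?_)
            rw [Fintype.card_prod, Fintype.card_fun, Fintype.card_fun]
            simp
            rw [mul_pow, mul_comm]
          exact_mod_cast h2
  have hpos : (0 : ℝ) < (2 ^ q : ℝ) ^ k := by positivity
  nlinarith

theorem cover_colorable {V I : Type} [Finite V] [Finite I] {G : SimpleGraph V} {A B : I → Set V}
    {r m k : ℕ} (hr : 0 < r) (hm0 : 0 < m) (hc : Cover G A B r)
    (hm : ∀ i, (A i).ncard < m ∨ (B i).ncard < m)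
    (h : (8 * (r * m) : ℝ) ^ r * (1 - (1 / 2 : ℝ) ^ r) ^ k < 1) : G.Colorable k := by
  classical
  have := Fintype.ofFinite I
  obtain ⟨q0, hq0, c, hcc⟩ : ∃ q0, q0 = 2 * ((r - 1) * (m - 1)) + 1 ∧ ∃ c : I → Fin q0,
      ∀ x v w, x ∈ A v → x ∈ B w → (c v ≠ c w ∨ (¬ (A v).ncard < m ∧ (A w).ncard < m)) :=
    ⟨_, rfl, cover_classes hc hm⟩
  let e : Fin q0 × Bool ≃ Fin (q0 * 2) := Fintype.equivOfCardEq (by simp)
  let cls : I → Fin (q0 * 2) := fun i => e (c i, decide ((A i).ncard < m))
  have hcls : ∀ x v w, x ∈ A v → x ∈ B w → cls v ≠ cls w := by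
    intro x v w hx hx' he
    have he := e.injective he
    rw [Prod.mk.injEq] at he
    rcases hcc x v w hx hx' with h | ⟨h1, h2⟩
    · exact h he.1
    · simp [h1, h2] at he
  have hk : 0 < k := by
    rcases Nat.eq_zero_or_pos k with rfl | hk
    · exfalso
      rw [pow_zero, mul_one] at h
      have : (1 : ℝ) ≤ (8 * (r * m) : ℝ) ^ r := one_le_pow₀ (by
        have h1 : (1 : ℝ) ≤ r := by exact_mod_cast hr
        have h2 : (1 : ℝ) ≤ m := by exact_mod_cast hm0
        nlinarith)
      linarith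
    · exact hk
  have h01 : (0 : ℝ) ≤ 1 - (1 / 2 : ℝ) ^ r := by
    have : (1 / 2 : ℝ) ^ r ≤ 1 := pow_le_one₀ (by norm_num) (by norm_num)
    linarith
  have hq : (2 * ((q0 * 2 : ℕ) : ℝ)) ^ r * (1 - (1 / 2 : ℝ) ^ r) ^ k < 1 := by
    refine lt_of_le_of_lt ?_ h
    refine mul_le_mul_of_nonneg_right (pow_le_pow_left₀ (by positivity) ?_ r) (by positivity)
    have h1 : q0 ≤ 2 * (r * m) := by
      obtain ⟨r', rfl⟩ : ∃ r', r = r' + 1 := ⟨r - 1, by omega⟩
      obtain ⟨m', rfl⟩ : ∃ m', m = m' + 1 := ⟨m - 1, by omega⟩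
      simp only [Nat.add_sub_cancel] at hq0
      rw [hq0]
      nlinarith [Nat.zero_le (r' * m')]
    have h2 : (q0 : ℝ) ≤ 2 * (r * m) := by exact_mod_cast h1
    push_cast
    linarith
  obtain ⟨F, hF⟩ := exists_family r (q0 * 2) k hq
  have key : ∀ x, ∃ a : Fin k, (∀ i, x ∈ A i → F a (cls i) = true) ∧
      (∀ i, x ∈ B i → F a (cls i) = false) := by
    intro x
    by_cases hT : ∃ i, x ∈ A i ∨ x ∈ B i
    · obtain ⟨g, hg, hg'⟩ : ∃ g : Fin r → I, (∀ i, (x ∈ A i ∨ x ∈ B i) → ∃ j, g j = i) ∧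
          ∀ j, x ∈ A (g j) ∨ x ∈ B (g j) := by
        obtain ⟨i0, hi0⟩ := hT
        let t : Finset I := univ.filter (fun i => x ∈ A i ∨ x ∈ B i)
        have ht : t.card ≤ r := by
          rw [← Set.ncard_coe_finset]
          convert hc.loc x
          ext i
          simp [t]
        refine ⟨fun j => if h : j.1 < t.card then (t.equivFin.symm ⟨j.1, h⟩).1 else i0, ?_, ?_⟩
        · intro i hi
          have hit : i ∈ t := by simpa [t] using hi
          let z := t.equivFin ⟨i, hit⟩
          refine ⟨⟨z.1, lt_of_lt_of_le z.2 ht⟩, ?_⟩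
          refine (dif_pos z.2).trans ?_
          show (t.equivFin.symm z).1 = i
          simp [z]
        · intro j
          show x ∈ A (dite _ _ _) ∨ x ∈ B (dite _ _ _)
          split_ifs with hj
          · have := (t.equivFin.symm ⟨j.1, hj⟩).2
            exact (mem_filter.1 this).2
          · exact hi0
      obtain ⟨a, ha⟩ := hF (fun j => cls (g j)) (fun j => decide (x ∈ A (g j))) (by
        intro i j hij
        by_contra hne
        by_cases h1 : x ∈ A (g i)
        · by_cases h2 : x ∈ A (g j)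
          · simp [h1, h2] at hne
          · exact hcls x _ _ h1 ((hg' j).resolve_left h2) hij
        · by_cases h2 : x ∈ A (g j)
          · exact hcls x _ _ h2 ((hg' i).resolve_left h1) hij.symm
          · simp [h1, h2] at hne)
      refine ⟨a, ?_, ?_⟩
      · intro i hi
        obtain ⟨j, rfl⟩ := hg i (Or.inl hi)
        rw [ha j]
        exact decide_eq_true hi
      · intro i hi
        obtain ⟨j, rfl⟩ := hg i (Or.inr hi)
        rw [ha j]
        exact decide_eq_false (fun h' => (hc.sub _ _ h' _ hi).ne rfl)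
    · exact ⟨⟨0, hk⟩, fun i h => absurd ⟨i, Or.inl h⟩ hT, fun i h => absurd ⟨i, Or.inr h⟩ hT⟩
  choose col h1 h2 using key
  refine ⟨SimpleGraph.Coloring.mk col ?_⟩
  intro x y hxy heq
  obtain ⟨i, ⟨hx, hy⟩ | ⟨hy, hx⟩⟩ := hc.cov x y hxy
  · have e1 := h1 x i hx
    have e2 := h2 y i hy
    rw [← heq, e1] at e2
    exact absurd e2 (by simp)
  · have e1 := h2 x i hx
    have e2 := h1 y i hy
    rw [← heq, e1] at e2
    exact absurd e2 (by simp)

/-- sides of size at least `m` give a clique minor of order `m + 1` -/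
theorem big_minor {V : Type} [Finite V] {G : SimpleGraph V} {A B : Set V} {m : ℕ} (hm : 0 < m)
    (hAB : ∀ x ∈ A, ∀ y ∈ B, G.Adj x y) (hA : m ≤ A.ncard) (hB : m ≤ B.ncard) :
    CMt G (Fin (m + 1)) := by
  classical
  have hAf := A.toFinite
  have hBf := B.toFinite
  obtain ⟨P⟩ : Nonempty (Fin m ↪ A) := by
    have := hAf.fintype
    apply Function.Embedding.nonempty_of_card_le
    rwa [Fintype.card_fin, ← Set.toFinset_card, ← Set.ncard_eq_toFinset_card']
  obtain ⟨Q⟩ : Nonempty (Fin m ↪ B) := by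
    have := hBf.fintype
    apply Function.Embedding.nonempty_of_card_le
    rwa [Fintype.card_fin, ← Set.toFinset_card, ← Set.ncard_eq_toFinset_card']
  exact biclique_minor G m hm (fun i => (P i).1) (fun i => (Q i).1)
    (fun i j h => P.injective (Subtype.ext h)) (fun i j h => Q.injective (Subtype.ext h))
    (fun i j => hAB _ (P i).2 _ (Q j).2)

/-- **Bicliques and chromatic number.** -/
theorem cover_biclique {V I : Type} [Finite V] [Finite I] {G : SimpleGraph V} {A B : I → Set V}
    {r m k : ℕ} (hr : 0 < r) (hm0 : 0 < m) (hc : Cover G A B r)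
    (h : (8 * (r * m) : ℝ) ^ r * (1 - (1 / 2 : ℝ) ^ r) ^ k < 1) (hG : ¬ G.Colorable k) :
    ∃ i, m ≤ (A i).ncard ∧ m ≤ (B i).ncard := by
  by_contra hcon
  push Not at hcon
  exact hG (cover_colorable hr hm0 hc (fun i => by
    by_cases h1 : (A i).ncard < m
    · exact Or.inl h1
    · exact Or.inr (hcon i (not_lt.1 h1))) h)

theorem cover_minor {V I : Type} [Finite V] [Finite I] {G : SimpleGraph V} {A B : I → Set V}
    {r m k : ℕ} (hr : 0 < r) (hm0 : 0 < m) (hc : Cover G A B r)
    (h : (8 * (r * m) : ℝ) ^ r * (1 - (1 / 2 : ℝ) ^ r) ^ k < 1) (hG : ¬ G.Colorable k) :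
    CMt G (Fin (m + 1)) := by
  obtain ⟨i, h1, h2⟩ := cover_biclique hr hm0 hc h hG
  exact big_minor hm0 (hc.sub i) h1 h2

/-- the threshold -/
theorem threshold (r : ℕ) : ∃ k₀ : ℕ, ∀ k : ℕ, k₀ ≤ k → 0 < k ∧
    (8 * (r * k) : ℝ) ^ r * (1 - (1 / 2 : ℝ) ^ r) ^ k < 1 := by
  have h1 : (0 : ℝ) ≤ 1 - (1 / 2 : ℝ) ^ r := by
    have : (1 / 2 : ℝ) ^ r ≤ 1 := pow_le_one₀ (by norm_num) (by norm_num)
    linarith
  have h2 : 1 - (1 / 2 : ℝ) ^ r < 1 := by
    have : (0 : ℝ) < (1 / 2 : ℝ) ^ r := by positivity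
    linarith
  have h3 := tendsto_pow_const_mul_const_pow_of_lt_one r h1 h2
  have h4 := h3.const_mul ((8 * r : ℝ) ^ r)
  rw [mul_zero] at h4
  have h5 := h4.eventually (gt_mem_nhds (show (0 : ℝ) < 1 by norm_num))
  obtain ⟨k₀, hk₀⟩ := Filter.eventually_atTop.1 h5
  refine ⟨k₀ + 1, fun k hk => ⟨by omega, ?_⟩⟩
  have h6 := hk₀ k (by omega)
  calc (8 * (r * k) : ℝ) ^ r * (1 - (1 / 2 : ℝ) ^ r) ^ k
      = (8 * r : ℝ) ^ r * ((k : ℝ) ^ r * (1 - (1 / 2 : ℝ) ^ r) ^ k) := by
        rw [← mul_assoc (8 : ℝ), mul_pow (8 * (r : ℝ)) (k : ℝ)]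
        ring
    _ < 1 := h6

theorem cover_hadwiger (r : ℕ) (hr : 0 < r) : ∃ k₀ : ℕ, ∀ k : ℕ, k₀ ≤ k →
    ∀ (V I : Type) [Finite V] [Finite I] (G : SimpleGraph V) (A B : I → Set V),
      Cover G A B r → ¬ G.Colorable k → CMt G (Fin (k + 1)) := by
  obtain ⟨k₀, h⟩ := threshold r
  refine ⟨k₀, fun k hk V I _ _ G A B hc hG => ?_⟩
  exact cover_minor hr (h k hk).1 hc (h k hk).2 hG

end Pool.Agent.K4H13.GP
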