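import Mathlib
import Pool.Agent.K4H13.GP.Biclique

/-!
Line digraphs (arc graphs): clique minors of exponential order.
-/

set_option autoImplicit false

namespace Pool.Agent.K4H13.GP

open SimpleGraph Finset Pool.Agent.R553.HW

/-- the underlying graph of the line digraph of `D` -/
def arcG {V : Type} (D : V → V → Prop) (hD : ∀ v, ¬ D v v) :
    SimpleGraph {p : V × V // D p.1 p.2} where
  Adj p q := p.1.2 = q.1.1 ∨ q.1.2 = p.1.1
  symm := ⟨fun _ _ h => h.symm⟩
  loopless := ⟨fun p h => by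
    have h' : p.1.2 = p.1.1 := h.elim id id
    have := p.2
    rw [h'] at this
    exact hD _ this⟩

theorem arc_cover {V : Type} [Finite V] (D : V → V → Prop) (hD : ∀ v, ¬ D v v) :
    Cover (arcG D hD) (fun v => {p | p.1.2 = v}) (fun v => {p | p.1.1 = v}) 2 where
  sub := by
    intro i x hx y hy
    exact Or.inl (hx.trans hy.symm)
  cov := by
    intro x y hxy
    rcases hxy with h | h
    · exact ⟨x.1.2, Or.inl ⟨rfl, h.symm⟩⟩
    · exact ⟨y.1.2, Or.inr ⟨rfl, h.symm⟩⟩
  loc := by
    intro x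
    have : {i | x ∈ ({p | p.1.2 = i} : Set {p : V × V // D p.1 p.2}) ∨
        x ∈ ({p | p.1.1 = i} : Set {p : V × V // D p.1 p.2})} = {x.1.2, x.1.1} := by
      ext i
      show (x.1.2 = i ∨ x.1.1 = i) ↔ (i = x.1.2 ∨ i = x.1.1)
      exact ⟨fun h => h.imp Eq.symm Eq.symm, fun h => h.imp Eq.symm Eq.symm⟩
    rw [this]
    refine (Set.ncard_insert_le _ _).trans ?_
    rw [Set.ncard_singleton]

theorem arc_colorable {V : Type} [Finite V] (D : V → V → Prop) (hD : ∀ v, ¬ D v v) (m n : ℕ)
    (hmn : 2 * (m - 1) + 1 ≤ n.choose (n / 2))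
    (hm : ∀ v : V, ({p | p.1.2 = v} : Set {p : V × V // D p.1 p.2}).ncard < m ∨
      ({p | p.1.1 = v} : Set {p : V × V // D p.1 p.2}).ncard < m) :
    (arcG D hD).Colorable (n + 1) := by
  classical
  obtain ⟨c, hc⟩ := cover_classes (arc_cover D hD) hm
  obtain ⟨e⟩ : Nonempty (Fin (2 * ((2 - 1) * (m - 1)) + 1) ↪
      {s : Finset (Fin n) // s ∈ powersetCard (n / 2) (univ : Finset (Fin n))}) := by
    apply Function.Embedding.nonempty_of_card_le
    rw [Fintype.card_fin, Fintype.card_coe, card_powersetCard, card_univ, Fintype.card_fin]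
    simpa using hmn
  let L : V → Prop := fun v => ({p | p.1.2 = v} : Set {p : V × V // D p.1 p.2}).ncard < m
  let f : V → Option (Fin n) → Prop := fun z o => o.elim (¬ L z) (fun i => i ∈ (e (c z)).1)
  have key : ∀ p : {p : V × V // D p.1 p.2}, ∃ o, f p.1.2 o ∧ ¬ f p.1.1 o := by
    intro p
    rcases hc p p.1.2 p.1.1 rfl rfl with h | ⟨h1, h2⟩
    · have hne : e (c p.1.2) ≠ e (c p.1.1) := fun h' => h (e.injective h')
      by_contra hcon
      push Not at hcon
      apply hne
      apply Subtype.ext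
      apply eq_of_subset_of_card_le
      · intro i hi
        exact hcon (some i) hi
      · rw [(mem_powersetCard.1 (e (c p.1.2)).2).2, (mem_powersetCard.1 (e (c p.1.1)).2).2]
    · exact ⟨none, h1, fun h => h h2⟩
  choose col h1 h2 using key
  have hcol : (arcG D hD).Colorable (Fintype.card (Option (Fin n))) := by
    have C : (arcG D hD).Coloring (Option (Fin n)) := SimpleGraph.Coloring.mk col (by
      intro p q hpq heq
      rcases hpq with h | h
      · have := h1 p
        rw [heq, h] at this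
        exact h2 q this
      · have := h1 q
        rw [← heq, h] at this
        exact h2 p this)
    exact C.colorable
  simpa using hcol

/-- **Line digraphs.** -/
theorem arc_minor {V : Type} [Finite V] (D : V → V → Prop) (hD : ∀ v, ¬ D v v) (m n : ℕ)
    (hm0 : 0 < m) (hmn : 2 * m ≤ n.choose (n / 2) + 1) (hG : ¬ (arcG D hD).Colorable (n + 1)) :
    CMt (arcG D hD) (Fin (m + 1)) := by
  by_contra hcon
  apply hG
  apply arc_colorable D hD m n (by omega)
  intro v
  by_contra h
  push Not at h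
  exact hcon (big_minor hm0 ((arc_cover D hD).sub v) h.1 h.2)

theorem choose_mid (n : ℕ) : n * (n - 1) ≤ 2 * n.choose (n / 2) := by
  have h1 := Nat.choose_le_middle 2 n
  have h2 : n.choose 2 = n * (n - 1) / 2 := Nat.choose_two_right n
  have h3 : 2 ∣ n * (n - 1) := (Nat.even_mul_pred_self n).two_dvd
  omega

theorem arc_obo {V : Type} [Finite V] (D : V → V → Prop) (hD : ∀ v, ¬ D v v) (k : ℕ)
    (hk : 6 ≤ k) (hG : ¬ (arcG D hD).Colorable k) : CMt (arcG D hD) (Fin k) := by
  obtain ⟨n, rfl⟩ : ∃ n, k = n + 1 := ⟨k - 1, by omega⟩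
  refine arc_minor D hD n n (by omega) ?_ hG
  have h := choose_mid n
  obtain ⟨j, rfl⟩ : ∃ j, n = j + 5 := ⟨n - 5, by omega⟩
  have e : (j + 5) * (j + 5 - 1) = j * j + 9 * j + 20 := by
    rw [show j + 5 - 1 = j + 4 by omega]; ring
  rw [e] at h
  nlinarith

theorem arc_had {V : Type} [Finite V] (D : V → V → Prop) (hD : ∀ v, ¬ D v v) (k : ℕ)
    (hk : 7 ≤ k) (hG : ¬ (arcG D hD).Colorable k) : CMt (arcG D hD) (Fin (k + 1)) := by
  obtain ⟨n, rfl⟩ : ∃ n, k = n + 1 := ⟨k - 1, by omega⟩
  refine arc_minor D hD (n + 1) n (by omega) ?_ hG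
  have h := choose_mid n
  obtain ⟨j, rfl⟩ : ∃ j, n = j + 6 := ⟨n - 6, by omega⟩
  have e : (j + 6) * (j + 6 - 1) = j * j + 11 * j + 30 := by
    rw [show j + 6 - 1 = j + 5 by omega]; ring
  rw [e] at h
  nlinarith

end Pool.Agent.K4H13.GP
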