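import Mathlib
import Pool.Agent.K4H13.GP.Basic
import Pool.Agent.R34.FH.Core

/-!
Clique minors in lexicographic products.
-/

set_option autoImplicit false

namespace Pool.Agent.K4H13.GP

open SimpleGraph Finset Pool.Agent.R553.HW

/-- the complete multipartite graph on blocks of length `h` of an initial segment -/
def blocks (h N : ℕ) : SimpleGraph (Fin N) where
  Adj x y := x.1 / h ≠ y.1 / h
  symm := ⟨fun _ _ h => h.symm⟩
  loopless := ⟨fun _ h => h rfl⟩

theorem blocks_minor {h m : ℕ} (hm : 2 ≤ m) : CMt (blocks h (m * h)) (Fin (m * h / 2)) := by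
  rcases Nat.eq_zero_or_pos h with rfl | hh
  · rw [show m * 0 / 2 = 0 by simp]
    exact ⟨fun i => i.elim0, fun i => i.elim0, fun i => i.elim0, fun i => i.elim0⟩
  set q := m * h / 2 with hq
  have hq1 : h ≤ q := by
    rw [hq, Nat.le_div_iff_mul_le (by norm_num)]
    nlinarith
  have hq2 : 2 * q ≤ m * h := by omega
  let lo : Fin q → Fin (m * h) := fun p => ⟨p.1, by omega⟩
  let hi : Fin q → Fin (m * h) := fun p => ⟨p.1 + q, by omega⟩
  have hdiv : ∀ p : Fin q, p.1 / h ≠ (p.1 + q) / h := by
    intro p heq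
    have h1 : (p.1 + h) / h ≤ (p.1 + q) / h := Nat.div_le_div_right (by omega)
    rw [Nat.add_div_right _ hh] at h1
    omega
  refine ⟨fun p => {lo p, hi p}, ?_, ?_, ?_⟩
  · intro p
    exact conn_two (hdiv p)
  · intro p p' hpp
    rw [Set.disjoint_left]
    intro x hx hx'
    simp only [Set.mem_insert_iff, Set.mem_singleton_iff] at hx hx'
    have h1 := p.2
    have h2 := p'.2
    have h3 : p.1 ≠ p'.1 := fun h => hpp (Fin.ext h)
    rcases hx with rfl | rfl <;> rcases hx' with hx' | hx' <;>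
      · have := congrArg Fin.val hx'
        simp only [lo, hi] at this
        omega
  · intro p p' hpp
    by_cases hc : p.1 / h = p'.1 / h
    · refine ⟨lo p, by simp, hi p', by simp, ?_⟩
      show p.1 / h ≠ (p'.1 + q) / h
      rw [hc]
      exact hdiv p'
    · exact ⟨lo p, by simp, lo p', by simp, hc⟩

/-- **lexicographic products**: a `K_m` minor of `G`, `m ≥ 2`, gives a clique minor of order
`⌊m |W| / 2⌋` -/
theorem lex_minor {V W : Type} [Finite W] (G : SimpleGraph V) (H : SimpleGraph W) {m : ℕ}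
    (hm : 2 ≤ m) (h : CMt G (Fin m)) : CMt (lex G H) (Fin (m * Nat.card W / 2)) := by
  classical
  have := Fintype.ofFinite W
  obtain ⟨f, h1, h2, h3⟩ := h
  have hc : Nat.card W = Fintype.card W := Nat.card_eq_fintype_card
  rw [hc]
  set n := Fintype.card W with hn
  let e : Fin n ≃ W := (Fintype.equivFin W).symm
  have blk : ∀ x : Fin (m * n), x.1 / n < m := fun x =>
    Nat.div_lt_of_lt_mul (lt_of_lt_of_eq x.2 (mul_comm m n))
  have hn0 : ∀ _ : Fin (m * n), 0 < n := fun x => by
    have h0 : 0 < m * n := lt_of_le_of_lt (Nat.zero_le _) x.2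
    exact Nat.pos_of_mul_pos_left h0
  let pos : Fin (m * n) → W := fun x => e ⟨x.1 % n, Nat.mod_lt _ (hn0 x)⟩
  let B : Fin (m * n) → Set (V × W) := fun x => (fun v => (v, pos x)) '' (f ⟨x.1 / n, blk x⟩)
  refine CMt_comp (lex G H) (blocks n (m * n)) B ?_ ?_ ?_ (blocks_minor hm)
  · intro x
    exact conn_map _ _ (fun a _ b _ hab => Or.inl hab) (h1 _)
  · intro x y hxy
    rw [Set.disjoint_left]
    rintro ⟨v, w⟩ ⟨a, ha, hav⟩ ⟨b, hb, hbv⟩
    rw [Prod.mk.injEq] at hav hbv
    obtain ⟨rfl, hw⟩ := hav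
    obtain ⟨rfl, hw'⟩ := hbv
    have h4 : x.1 / n = y.1 / n := by
      by_contra hne
      have hne' : (⟨x.1 / n, blk x⟩ : Fin m) ≠ ⟨y.1 / n, blk y⟩ := by
        intro h
        exact hne (congrArg Fin.val h)
      exact Set.disjoint_left.1 (h2 _ _ hne') ha hb
    have h5 : x.1 % n = y.1 % n := by
      have := e.injective (hw.trans hw'.symm)
      exact congrArg Fin.val this
    apply hxy
    apply Fin.ext
    rw [← Nat.div_add_mod x.1 n, ← Nat.div_add_mod y.1 n, h4, h5]
  · intro x y hxy
    have hne' : (⟨x.1 / n, blk x⟩ : Fin m) ≠ ⟨y.1 / n, blk y⟩ := by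
      intro h
      exact hxy (congrArg Fin.val h)
    obtain ⟨u, hu, v, hv, huv⟩ := h3 _ _ hne'
    exact ⟨(u, pos x), ⟨u, hu, rfl⟩, (v, pos y), ⟨v, hv, rfl⟩, Or.inl huv⟩

theorem lex_colorable {V W : Type} {G : SimpleGraph V} {H : SimpleGraph W} {a b : ℕ}
    (hG : G.Colorable a) (hH : H.Colorable b) : (lex G H).Colorable (a * b) := by
  obtain ⟨c⟩ := hG
  obtain ⟨d⟩ := hH
  have C : (lex G H).Coloring (Fin a × Fin b) := Coloring.mk (fun x => (c x.1, d x.2)) (by
    intro x y hxy heq
    rw [Prod.mk.injEq] at heq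
    rcases hxy with hxy | ⟨-, hxy⟩
    · exact c.valid hxy heq.1
    · exact d.valid hxy heq.2)
  simpa using C.colorable

/-- an edge is a `K_2` minor -/
theorem edge_minor {V : Type} {G : SimpleGraph V} (h : ∃ u v, G.Adj u v) : CMt G (Fin 2) := by
  classical
  obtain ⟨u, v, huv⟩ := h
  refine CMt_clique G {u, v} ?_ ?_
  · intro x hx y hy hxy
    simp only [mem_insert, mem_singleton] at hx hy
    rcases hx with rfl | rfl <;> rcases hy with rfl | rfl
    · exact absurd rfl hxy
    · exact huv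
    · exact huv.symm
    · exact absurd rfl hxy
  · rw [card_pair huv.ne]

/-- the chromatic number in the form used here -/
theorem exists_chi {V : Type} [Finite V] (G : SimpleGraph V) :
    ∃ a, G.Colorable a ∧ ∀ k, ¬ G.Colorable k ↔ k < a := by
  classical
  have := Fintype.ofFinite V
  have hex : ∃ a, G.Colorable a := ⟨_, G.colorable_of_fintype⟩
  refine ⟨Nat.find hex, Nat.find_spec hex, fun k => ⟨fun h => ?_, fun h => Nat.find_min hex h⟩⟩
  by_contra hlt
  push Not at hlt
  exact h ((Nat.find_spec hex).mono hlt)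

/-- **Hadwiger's conjecture for `G[H]` from Hadwiger's conjecture for `G`.** -/
theorem lex_had {V W : Type} [Finite V] [Finite W] (G : SimpleGraph V) (H : SimpleGraph W)
    (he : ∃ u v, G.Adj u v) (hG : Had G) {b : ℕ} (hb : H.Colorable b)
    (hW : 2 * b ≤ Nat.card W) : Had (lex G H) := by
  intro k hk
  obtain ⟨a, ha, hmin⟩ := exists_chi G
  have hkab : k < a * b := by
    by_contra hlt
    push Not at hlt
    exact hk ((lex_colorable ha hb).mono hlt)
  have ha2 : 2 ≤ a := by
    obtain ⟨u, v, huv⟩ := he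
    by_contra hlt
    push Not at hlt
    obtain ⟨c⟩ := ha.mono (show a ≤ 1 by omega)
    exact c.valid huv (Subsingleton.elim _ _)
  have h1 : CMt G (Fin a) := by
    have := hG (a - 1) ((hmin _).2 (by omega))
    rwa [show a - 1 + 1 = a by omega] at this
  refine mono_minor (lex_minor G H ha2 h1) ?_
  rw [Nat.le_div_iff_mul_le (by norm_num)]
  nlinarith

/-- **Hadwiger's conjecture for `G[H]` from its off-by-one form for `G`.** -/
theorem lex_obo {V W : Type} [Finite V] [Finite W] (G : SimpleGraph V) (H : SimpleGraph W)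
    (he : ∃ u v, G.Adj u v) (hG : Obo G) {b : ℕ} (hb : H.Colorable b)
    (hW : 3 * b ≤ Nat.card W) : Had (lex G H) := by
  intro k hk
  obtain ⟨a, ha, hmin⟩ := exists_chi G
  have hkab : k < a * b := by
    by_contra hlt
    push Not at hlt
    exact hk ((lex_colorable ha hb).mono hlt)
  have ha2 : 2 ≤ a := by
    obtain ⟨u, v, huv⟩ := he
    by_contra hlt
    push Not at hlt
    obtain ⟨c⟩ := ha.mono (show a ≤ 1 by omega)
    exact c.valid huv (Subsingleton.elim _ _)
  rcases Nat.lt_or_ge a 3 with ha3 | ha3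
  · have ha' : a = 2 := by omega
    refine mono_minor (lex_minor G H le_rfl (edge_minor he)) ?_
    rw [Nat.le_div_iff_mul_le (by norm_num)]
    subst ha'
    omega
  · have h1 : CMt G (Fin (a - 1)) := hG (a - 1) ((hmin _).2 (by omega))
    refine mono_minor (lex_minor G H (by omega) h1) ?_
    rw [Nat.le_div_iff_mul_le (by norm_num)]
    obtain ⟨c, rfl⟩ : ∃ c, a = c + 1 := ⟨a - 1, by omega⟩
    rw [Nat.add_sub_cancel]
    have : 2 ≤ c := by omega
    nlinarith

/-- **Hadwiger's conjecture for `G[H]` if `|W| ≥ χ(G) χ(H)`.** -/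
theorem lex_big {V W : Type} [Finite W] (G : SimpleGraph V) (H : SimpleGraph W)
    (he : ∃ u v, G.Adj u v) {a b : ℕ} (ha : G.Colorable a) (hb : H.Colorable b)
    (hW : a * b ≤ Nat.card W) : Had (lex G H) := by
  intro k hk
  have hkab : k < a * b := by
    by_contra hlt
    push Not at hlt
    exact hk ((lex_colorable ha hb).mono hlt)
  refine mono_minor (lex_minor G H le_rfl (edge_minor he)) ?_
  rw [Nat.le_div_iff_mul_le (by norm_num)]
  omega

end Pool.Agent.K4H13.GP
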