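import Mathlib
import Pool.Agent.K4H13.GP.Lex

/-!
Clique minors in lexicographic products from the Kostochka-Thomason bound of the starting library.
-/

set_option autoImplicit false

namespace Pool.Agent.K4H13.GP

open SimpleGraph Finset Pool.Agent.R553.HW
open Pool.Agent.R34.FH

/-- a large average degree forces `K_t` -/
theorem kt {V : Type} [Fintype V] (L : SimpleGraph V) (hV : 0 < Fintype.card V) {t w : ℕ}
    (hw : 3 ≤ w) (hw2 : (t : ℝ) * (4 / 5 : ℝ) ^ (w * w) ≤ 1 / 4)
    (hL : ∀ v, 600 * (t * w) ≤ (nb L v).card) : CMt L (Fin t) := by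
  classical
  have h := force (⊤ : SimpleGraph (Fin t)) (fun _ => w) (fun _ => hw) ?_ L hV ?_
  · obtain ⟨B, h1, h2, h3⟩ := h
    exact ⟨B, h1, h2, fun i j hij => h3 i j hij⟩
  · intro x
    rw [sum_const, nsmul_eq_mul, ← pow_mul]
    refine le_trans ?_ hw2
    refine mul_le_mul_of_nonneg_right ?_ (by positivity)
    refine Nat.cast_le.2 ?_
    exact (card_le_univ _).trans (le_of_eq (Fintype.card_fin t))
  · rw [pr_eq]
    simp only [sum_const, card_univ, Fintype.card_fin, smul_eq_mul]
    calc 600 * (t * w) * Fintype.card V = ∑ _v : V, 600 * (t * w) := by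
          rw [sum_const, card_univ, smul_eq_mul, mul_comm]
      _ ≤ ∑ v, (nb L v).card := sum_le_sum fun v _ => hL v

theorem lex_kt {V W : Type} [Finite V] [Finite W] [Nonempty W] (G : SimpleGraph V)
    (H : SimpleGraph W) {k t w : ℕ} (hG : ¬ G.Colorable k) (hw : 3 ≤ w)
    (hw2 : (t : ℝ) * (4 / 5 : ℝ) ^ (w * w) ≤ 1 / 4)
    (hk : 600 * (t * w) ≤ k * Nat.card W) : CMt (lex G H) (Fin t) := by
  classical
  have := Fintype.ofFinite V
  have := Fintype.ofFinite W
  rw [Nat.card_eq_fintype_card] at hk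
  obtain ⟨S, ⟨v0, hv0⟩, hS⟩ := exists_core G k hG
  have : Fintype S := Fintype.ofFinite S
  have hmin : CMt (lex (G.induce S) H) (Fin t) := by
    refine kt _ ?_ hw hw2 ?_
    · have : Nonempty (S × W) := ⟨(⟨v0, hv0⟩, Classical.arbitrary W)⟩
      exact Fintype.card_pos
    · rintro ⟨v, x⟩
      refine hk.trans ?_
      have h1 := hS v.1 v.2
      have h2 : k ≤ ((univ : Finset S).filter (fun y => G.Adj v.1 y.1)).card := by
        refine h1.trans (le_of_eq ?_)
        rw [← Set.ncard_coe_finset]
        have h3 : {y | y ∈ S ∧ G.Adj v.1 y} =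
            Subtype.val '' (((univ : Finset S).filter (fun y => G.Adj v.1 y.1) : Finset S) : Set S) := by
          ext y
          simp only [Set.mem_setOf_eq, coe_filter, mem_univ, true_and, Set.mem_image,
            Subtype.exists, exists_and_right, exists_eq_right]
          constructor
          · rintro ⟨a, b⟩
            exact ⟨a, b⟩
          · rintro ⟨a, b⟩
            exact ⟨a, b⟩
        rw [h3, Set.ncard_image_of_injective _ Subtype.val_injective]
      have h4 : ((univ : Finset S).filter (fun y => G.Adj v.1 y.1)) ×ˢ (univ : Finset W) ⊆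
          nb (lex (G.induce S) H) (v, x) := by
        rintro ⟨y, z⟩ hyz
        rw [mem_product, mem_filter] at hyz
        rw [mem_nb]
        exact Or.inl hyz.1.2
      calc k * Fintype.card W ≤
            ((univ : Finset S).filter (fun y => G.Adj v.1 y.1)).card * Fintype.card W :=
            Nat.mul_le_mul_right _ h2
        _ = (((univ : Finset S).filter (fun y => G.Adj v.1 y.1)) ×ˢ (univ : Finset W)).card := by
            rw [card_product, card_univ]
        _ ≤ _ := card_le_card h4
  refine iso_minor (fun p : S × W => (p.1.1, p.2)) ?_ ?_ hmin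
  · rintro ⟨a, b⟩ ⟨c, d⟩ h
    rw [Prod.mk.injEq] at h
    exact Prod.ext (Subtype.ext h.1) h.2
  · rintro ⟨a, b⟩ ⟨c, d⟩ h
    rcases h with h | ⟨h1, h2⟩
    · exact Or.inl h
    · exact Or.inr ⟨congrArg Subtype.val h1, h2⟩

/-- **Hadwiger's conjecture for `G[H]`, no condition on `G`.** -/
theorem lex_log {V W : Type} [Finite V] [Finite W] (G : SimpleGraph V) (H : SimpleGraph W)
    (he : ∃ u v, G.Adj u v) {a b : ℕ} (ha : G.Colorable a) (hb : H.Colorable b)
    (hW : 3600 * b * √(Real.log (4 * a * b)) ≤ Nat.card W) : Had (lex G H) := by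
  classical
  intro k hk
  rcases isEmpty_or_nonempty W with hWe | hWe
  · exact absurd (Colorable.of_isEmpty k) hk
  obtain ⟨a', ha', hmin⟩ := exists_chi G
  have hkab : k < a' * b := by
    by_contra hlt
    push Not at hlt
    exact hk ((lex_colorable ha' hb).mono hlt)
  have ha'a : a' ≤ a := by
    by_contra hlt
    push Not at hlt
    exact ((hmin a).2 hlt) ha
  have ha2 : 2 ≤ a' := by
    obtain ⟨u, v, huv⟩ := he
    by_contra hlt
    push Not at hlt
    obtain ⟨c⟩ := ha'.mono (show a' ≤ 1 by omega)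
    exact c.valid huv (Subsingleton.elim _ _)
  have hb1 : 1 ≤ b := by
    rcases Nat.eq_zero_or_pos b with rfl | h
    · simp at hkab
    · exact h
  have haR : (2 : ℝ) ≤ a' := by exact_mod_cast ha2
  have haaR : (a' : ℝ) ≤ a := by exact_mod_cast ha'a
  have hbR : (1 : ℝ) ≤ b := by exact_mod_cast hb1
  set l := √(Real.log (4 * a' * b)) with hl
  have h8 : (8 : ℝ) ≤ 4 * a' * b := by nlinarith
  have hlog8 : (2.07 : ℝ) ≤ Real.log 8 := by
    rw [show (8 : ℝ) = 2 ^ 3 by norm_num, Real.log_pow]
    have := Real.log_two_gt_d9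
    push_cast
    linarith
  have hlog : (2.07 : ℝ) ≤ Real.log (4 * a' * b) :=
    hlog8.trans (Real.log_le_log (by norm_num) h8)
  have hl0 : (1.43 : ℝ) ≤ l := by
    rw [hl]
    apply Real.le_sqrt_of_sq_le
    norm_num
    linarith
  have hl2 : l ^ 2 = Real.log (4 * a' * b) := Real.sq_sqrt (by linarith)
  have hll : l ≤ √(Real.log (4 * a * b)) := by
    apply Real.sqrt_le_sqrt
    apply Real.log_le_log (by linarith)
    nlinarith
  set w := ⌈(2.24 : ℝ) * l⌉₊ with hw
  have hw1 : (2.24 : ℝ) * l ≤ w := Nat.le_ceil _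
  have hw2 : (w : ℝ) ≤ 2.24 * l + 1 := (Nat.ceil_lt_add_one (by nlinarith)).le
  have hw3 : 3 ≤ w := by
    have : (3 : ℝ) < w := by nlinarith
    exact_mod_cast this.le
  have h1 : CMt (lex G H) (Fin (a' * b)) := by
    refine lex_kt G H (k := a' - 1) (w := w) ((hmin _).2 (by omega)) hw3 ?_ ?_
    · have e1 : (4 / 5 : ℝ) ≤ Real.exp (-(1 / 5)) := by
        have := Real.add_one_le_exp (-(1 / 5 : ℝ))
        linarith
      have e2 : (4 / 5 : ℝ) ^ (w * w) ≤ Real.exp (-Real.log (4 * a' * b)) := by
        calc (4 / 5 : ℝ) ^ (w * w) ≤ (Real.exp (-(1 / 5))) ^ (w * w) :=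
              pow_le_pow_left₀ (by norm_num) e1 _
          _ = Real.exp ((w * w : ℕ) * (-(1 / 5))) := by rw [← Real.exp_nat_mul]
          _ ≤ Real.exp (-Real.log (4 * a' * b)) := by
              apply Real.exp_le_exp.2
              rw [← hl2]
              push_cast
              nlinarith
      rw [Real.exp_neg, Real.exp_log (by linarith)] at e2
      push_cast
      calc (a' : ℝ) * b * (4 / 5 : ℝ) ^ (w * w) ≤ (a' : ℝ) * b * (4 * (a' : ℝ) * b)⁻¹ := by gcongr
        _ = 1 / 4 := by
            field_simp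
    · have e1 : (600 : ℝ) * ((a' * b : ℕ) * w) ≤ ((a' - 1 : ℕ) : ℝ) * Nat.card W := by
        have e2 : (((a' - 1 : ℕ)) : ℝ) = a' - 1 := by
          rw [Nat.cast_sub (by omega)]
          simp
        rw [e2]
        have e3 : (w : ℝ) ≤ 2.94 * l := by linarith
        have e4 : 3600 * b * l ≤ Nat.card W := by
          refine le_trans ?_ hW
          gcongr
        push_cast
        have e5 : (0 : ℝ) ≤ l := by linarith
        calc (600 : ℝ) * (a' * b * w) ≤ 600 * (a' * b * (2.94 * l)) := by gcongr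
          _ ≤ (a' / 2) * (3600 * b * l) := by nlinarith [mul_nonneg (mul_nonneg (by linarith : (0:ℝ) ≤ a') (by linarith : (0:ℝ) ≤ b)) e5]
          _ ≤ (a' - 1) * Nat.card W := by
              refine mul_le_mul (by linarith) e4 (by positivity) (by linarith)
      exact_mod_cast e1
  exact mono_minor h1 (by omega)

end Pool.Agent.K4H13.GP
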