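import Mathlib
import Pool.Agent.K4H13.GP.Lex

/-!
Clique minors in strong products of two connected graphs.
-/

set_option autoImplicit false

namespace Pool.Agent.K4H13.GP

open SimpleGraph Finset Pool.Agent.R553.HW

/-- a connected set with a perfect matching, and outside of it every vertex has a neighbour in it -/
theorem exists_matched {V : Type} [Finite V] (G : SimpleGraph V) (hG : G.Connected)
    (hN : 2 ≤ Nat.card V) : ∃ (j : ℕ) (m : Fin j × Bool → V), Function.Injective m ∧
      (∀ i, G.Adj (m (i, false)) (m (i, true))) ∧ (G.induce (Set.range m)).Connected ∧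
      ∀ x ∉ Set.range m, ∃ s ∈ Set.range m, G.Adj x s := by
  classical
  have := Fintype.ofFinite V
  rw [Nat.card_eq_fintype_card] at hN
  let P : ℕ → Prop := fun j => ∃ m : Fin j × Bool → V, Function.Injective m ∧
      (∀ i, G.Adj (m (i, false)) (m (i, true))) ∧ (G.induce (Set.range m)).Connected
  have hbd : ∀ j, P j → j ≤ Fintype.card V := by
    rintro j ⟨m, hm, -⟩
    have := Fintype.card_le_of_injective m hm
    rw [Fintype.card_prod, Fintype.card_fin, Fintype.card_bool] at this
    omega
  have hP1 : P 1 := by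
    have : Nontrivial V := Fintype.one_lt_card_iff_nontrivial.1 (by omega)
    obtain ⟨u, v, huv⟩ := exists_pair_ne V
    obtain ⟨p⟩ := hG.preconnected u v
    obtain ⟨d, -, h1, h2⟩ := p.exists_boundary_dart {u} rfl (by
      rw [Set.mem_singleton_iff]
      exact huv.symm)
    have hd := d.adj
    have hr : Set.range (fun p : Fin 1 × Bool => if p.2 then d.snd else d.fst) =
        {d.fst, d.snd} := by
      ext x
      simp only [Set.mem_range, Prod.exists, Set.mem_insert_iff, Set.mem_singleton_iff]
      constructor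
      · rintro ⟨i, b, rfl⟩
        cases b <;> simp
      · rintro (rfl | rfl)
        · exact ⟨0, false, by simp⟩
        · exact ⟨0, true, by simp⟩
    refine ⟨fun p => if p.2 then d.snd else d.fst, ?_, ?_, ?_⟩
    · rintro ⟨i, b⟩ ⟨i', b'⟩ h
      have hi : i = i' := Subsingleton.elim _ _
      subst hi
      cases b <;> cases b'
      · rfl
      · exact absurd (by simpa using h) hd.ne
      · exact absurd (by simpa using h.symm) hd.ne
      · rfl
    · intro i
      simpa using hd
    · rw [hr]
      exact conn_two hd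
  set j := Nat.findGreatest P (Fintype.card V) with hj
  have hPj : P j := Nat.findGreatest_spec (P := P) (m := 1) (by omega) hP1
  have hmax : ¬ P (j + 1) := fun h => by
    have := Nat.le_findGreatest (hbd _ h) h
    omega
  obtain ⟨m, hm, hadj, hconn⟩ := hPj
  refine ⟨j, m, hm, hadj, hconn, ?_⟩
  by_contra hcon
  push Not at hcon
  obtain ⟨x, hx, hxs⟩ := hcon
  obtain ⟨s0⟩ := hconn.nonempty
  obtain ⟨p⟩ := hG.preconnected x s0
  obtain ⟨d, -, ⟨h1, h2⟩, h3⟩ := p.exists_boundary_dart
    {v | v ∉ Set.range m ∧ ∀ s ∈ Set.range m, ¬ G.Adj v s} ⟨hx, hxs⟩ (fun h => h.1 s0.2)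
  have hd := d.adj
  set a := d.fst with ha
  set b := d.snd with hb
  have hbS : b ∉ Set.range m := fun h => h2 b h hd
  have hbn : ∃ s ∈ Set.range m, G.Adj b s := by
    by_contra hcon2
    push Not at hcon2
    exact h3 ⟨hbS, hcon2⟩
  obtain ⟨s, hs, hbs⟩ := hbn
  apply hmax
  let m' : Fin (j + 1) × Bool → V := fun p =>
    if h : p.1.1 < j then m (⟨p.1.1, h⟩, p.2) else (if p.2 then a else b)
  have e1 : ∀ (i : Fin (j + 1)) (h : i.1 < j) (c : Bool), m' (i, c) = m (⟨i.1, h⟩, c) := by
    intro i h c
    simp [m', h]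
  have e2 : ∀ (i : Fin (j + 1)) (_ : ¬ i.1 < j), m' (i, false) = b ∧ m' (i, true) = a := by
    intro i h
    simp [m', h]
  have hr : Set.range m' = Set.range m ∪ {b, a} := by
    ext y
    constructor
    · rintro ⟨⟨i, c⟩, rfl⟩
      by_cases h : i.1 < j
      · rw [e1 i h]
        exact Or.inl ⟨_, rfl⟩
      · right
        cases c
        · rw [(e2 i h).1]; simp
        · rw [(e2 i h).2]; simp
    · rintro (⟨⟨i, c⟩, rfl⟩ | h)
      · refine ⟨(⟨i.1, by omega⟩, c), ?_⟩
        rw [e1 ⟨i.1, by omega⟩ i.2]
      · rw [Set.mem_insert_iff, Set.mem_singleton_iff] at h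
        rcases h with rfl | rfl
        · exact ⟨(⟨j, by omega⟩, false), (e2 ⟨j, by omega⟩ (by simp)).1⟩
        · exact ⟨(⟨j, by omega⟩, true), (e2 ⟨j, by omega⟩ (by simp)).2⟩
  refine ⟨m', ?_, ?_, ?_⟩
  · rintro ⟨i, c⟩ ⟨i', c'⟩ h
    by_cases hi : i.1 < j
    · by_cases hi' : i'.1 < j
      · rw [e1 i hi, e1 i' hi'] at h
        have h4 := hm h
        rw [Prod.mk.injEq, Fin.mk.injEq] at h4
        exact Prod.ext (Fin.ext h4.1) h4.2
      · rw [e1 i hi] at h
        exfalso
        cases c'
        · rw [(e2 i' hi').1] at h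
          exact hbS ⟨_, h⟩
        · rw [(e2 i' hi').2] at h
          exact h1 ⟨_, h⟩
    · by_cases hi' : i'.1 < j
      · rw [e1 i' hi'] at h
        exfalso
        cases c
        · rw [(e2 i hi).1] at h
          exact hbS ⟨_, h.symm⟩
        · rw [(e2 i hi).2] at h
          exact h1 ⟨_, h.symm⟩
      · have hii : i = i' := Fin.ext (by omega)
        subst hii
        cases c <;> cases c'
        · rfl
        · rw [(e2 i hi).1, (e2 i hi).2] at h
          exact absurd h.symm hd.ne
        · rw [(e2 i hi).1, (e2 i hi).2] at h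
          exact absurd h hd.ne
        · rfl
  · intro i
    by_cases hi : i.1 < j
    · rw [e1 i hi, e1 i hi]
      exact hadj _
    · rw [(e2 i hi).1, (e2 i hi).2]
      exact hd.symm
  · rw [hr]
    exact connected_induce_union hconn.preconnected (conn_two hd.symm).preconnected hs
      (by simp) hbs.symm

theorem conn_univ {W : Type} {H : SimpleGraph W} (hH : H.Connected) :
    (H.induce Set.univ).Connected := by
  let φ : H →g H.induce Set.univ :=
    { toFun := fun x => ⟨x, trivial⟩
      map_rel' := fun {a b} hab => hab }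
  refine SimpleGraph.Connected.map φ ?_ hH
  rintro ⟨x, hx⟩
  exact ⟨x, rfl⟩

/-- the leafy case -/
theorem leafy {V W : Type} (G : SimpleGraph V) (H : SimpleGraph W) (hH : H.Connected)
    (S : Set V) (hS : (G.induce S).Connected) {t : ℕ} (g : Fin t → V) (hg : Function.Injective g)
    (hgS : ∀ i, g i ∉ S) (hgn : ∀ i, ∃ s ∈ S, G.Adj (g i) s) (h : Fin t → W)
    (hh : Function.Injective h) : CMt (strong G H) (Fin t) := by
  have key : ∀ i j : Fin t, ∃ s ∈ S, (strong G H).Adj (g i, h j) (s, h j) := by
    intro i j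
    obtain ⟨s, hs, hadj⟩ := hgn i
    refine ⟨s, hs, ?_, Or.inr hadj, Or.inl rfl⟩
    intro heq
    exact hadj.ne (congrArg Prod.fst heq)
  refine ⟨fun i => (fun w => (g i, w)) '' Set.univ ∪ (fun v => (v, h i)) '' S, ?_, ?_, ?_⟩
  · intro i
    obtain ⟨s, hs, hadj⟩ := key i i
    refine connected_induce_union (conn_map _ _ ?_ (conn_univ hH)).preconnected
      (conn_map _ _ ?_ hS).preconnected ⟨h i, trivial, rfl⟩ ⟨s, hs, rfl⟩ hadj
    · intro x _ y _ hxy
      exact ⟨fun heq => hxy.ne (congrArg Prod.snd heq), Or.inl rfl, Or.inr hxy⟩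
    · intro x _ y _ hxy
      exact ⟨fun heq => hxy.ne (congrArg Prod.fst heq), Or.inr hxy, Or.inl rfl⟩
  · intro i j hij
    rw [Set.disjoint_left]
    rintro ⟨x, y⟩ (⟨a, -, ha⟩ | ⟨a, ha, ha'⟩) (⟨b, -, hb⟩ | ⟨b, hb, hb'⟩)
    · rw [Prod.mk.injEq] at ha hb
      exact hij (hg (ha.1.trans hb.1.symm))
    · rw [Prod.mk.injEq] at ha hb'
      apply hgS i
      rw [ha.1, ← hb'.1]
      exact hb
    · rw [Prod.mk.injEq] at ha' hb
      apply hgS j
      rw [hb.1, ← ha'.1]
      exact ha
    · rw [Prod.mk.injEq] at ha' hb'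
      exact hij (hh (ha'.2.trans hb'.2.symm))
  · intro i j _
    obtain ⟨s, hs, hadj⟩ := key i j
    exact ⟨(g i, h j), Or.inl ⟨h j, trivial, rfl⟩, (s, h j), Or.inr ⟨s, hs, rfl⟩, hadj⟩

open Classical in
/-- the matched case -/
theorem matchy {V W : Type} (G : SimpleGraph V) (H : SimpleGraph W) (hG : G.Connected)
    (hH : H.Connected) {t : ℕ} (m : Fin t × Bool → V) (hm : Function.Injective m)
    (hma : ∀ i, G.Adj (m (i, false)) (m (i, true))) (n : Fin t × Bool → W)
    (hn : Function.Injective n) (hna : ∀ i, H.Adj (n (i, false)) (n (i, true))) :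
    CMt (strong G H) (Fin t) := by
  let σ : Fin t → W → V := fun i w => if ∃ j, w = n (j, true) then m (i, true) else m (i, false)
  let τ : Fin t → V → W := fun j v => if ∃ i, v = m (i, false) then n (j, true) else n (j, false)
  have s1 : ∀ i j, σ i (n (j, true)) = m (i, true) := fun i j => if_pos ⟨j, rfl⟩
  have s0 : ∀ i j, σ i (n (j, false)) = m (i, false) := fun i j => if_neg (by
    rintro ⟨k, hk⟩
    have := hn hk
    simp at this)
  have t1 : ∀ i j, τ j (m (i, false)) = n (j, true) := fun i j => if_pos ⟨i, rfl⟩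
  have t0 : ∀ i j, τ j (m (i, true)) = n (j, false) := fun i j => if_neg (by
    rintro ⟨k, hk⟩
    have := hm hk
    simp at this)
  have hσ : ∀ i w, σ i w = m (i, true) ∨ σ i w = m (i, false) := fun i w => by
    by_cases h : ∃ j, w = n (j, true)
    · exact Or.inl (if_pos h)
    · exact Or.inr (if_neg h)
  have hτ : ∀ j v, τ j v = n (j, true) ∨ τ j v = n (j, false) := fun j v => by
    by_cases h : ∃ i, v = m (i, false)
    · exact Or.inl (if_pos h)
    · exact Or.inr (if_neg h)
  have key : ∀ i j : Fin t, (strong G H).Adj (m (i, false), n (j, false))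
      (m (i, false), n (j, true)) := by
    intro i j
    refine ⟨?_, Or.inl rfl, Or.inr (hna j)⟩
    intro heq
    exact (hna j).ne (congrArg Prod.snd heq)
  have hR : ∀ i j, (m (i, false), n (j, false)) ∈ (fun w => (σ i w, w)) '' Set.univ := fun i j =>
    ⟨n (j, false), trivial, by simp only [s0]⟩
  have hC : ∀ i j, (m (i, false), n (j, true)) ∈ (fun v => (v, τ j v)) '' Set.univ := fun i j =>
    ⟨m (i, false), trivial, by simp only [t1]⟩
  have hdis : ∀ i j x, x ∈ (fun w => (σ i w, w)) '' Set.univ →
      x ∈ (fun v => (v, τ j v)) '' Set.univ → False := by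
    rintro i j ⟨v, w⟩ ⟨w', -, h1⟩ ⟨v', -, h2⟩
    rw [Prod.mk.injEq] at h1 h2
    obtain ⟨h1, rfl⟩ := h1
    obtain ⟨rfl, h2⟩ := h2
    rcases hτ j v' with h | h
    · rw [h] at h2
      rw [← h2, s1] at h1
      rw [← h1, t0] at h
      have := hn h
      simp at this
    · rw [h] at h2
      rw [← h2, s0] at h1
      rw [← h1, t1] at h
      have := hn h
      simp at this
  refine ⟨fun i => (fun w => (σ i w, w)) '' Set.univ ∪ (fun v => (v, τ i v)) '' Set.univ, ?_, ?_, ?_⟩
  · intro i
    refine connected_induce_union (conn_map _ _ ?_ (conn_univ hH)).preconnected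
      (conn_map _ _ ?_ (conn_univ hG)).preconnected (hR i i) (hC i i) (key i i)
    · intro x _ y _ hxy
      refine ⟨fun heq => hxy.ne (congrArg Prod.snd heq), ?_, Or.inr hxy⟩
      rcases hσ i x with h1 | h1 <;> rcases hσ i y with h2 | h2 <;> simp only [h1, h2]
      · exact Or.inl trivial
      · exact Or.inr (hma i).symm
      · exact Or.inr (hma i)
      · exact Or.inl trivial
    · intro x _ y _ hxy
      refine ⟨fun heq => hxy.ne (congrArg Prod.fst heq), Or.inr hxy, ?_⟩
      rcases hτ i x with h1 | h1 <;> rcases hτ i y with h2 | h2 <;> simp only [h1, h2]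
      · exact Or.inl trivial
      · exact Or.inr (hna i).symm
      · exact Or.inr (hna i)
      · exact Or.inl trivial
  · intro i j hij
    rw [Set.disjoint_left]
    rintro x (hx | hx) (hx' | hx')
    · obtain ⟨w, -, rfl⟩ := hx
      obtain ⟨w', -, h⟩ := hx'
      simp only [Prod.mk.injEq] at h
      obtain ⟨h, rfl⟩ := h
      apply hij
      rcases hσ i w' with h1 | h1 <;> rcases hσ j w' with h2 | h2 <;> rw [h1, h2] at h <;>
        have := hm h <;> simp at this
      · exact this.symm
      · exact this.symm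
    · exact hdis i j x hx hx'
    · exact hdis j i x hx' hx
    · obtain ⟨v, -, rfl⟩ := hx
      obtain ⟨v', -, h⟩ := hx'
      simp only [Prod.mk.injEq] at h
      obtain ⟨rfl, h⟩ := h
      apply hij
      rcases hτ i v' with h1 | h1 <;> rcases hτ j v' with h2 | h2 <;> rw [h1, h2] at h <;>
        have := hn h <;> simp at this
      · exact this.symm
      · exact this.symm
  · intro i j _
    exact ⟨_, Or.inl (hR i j), _, Or.inr (hC i j), key i j⟩

theorem strong_swap {V W ι : Type} {G : SimpleGraph V} {H : SimpleGraph W}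
    (h : CMt (strong G H) ι) : CMt (strong H G) ι := by
  refine iso_minor Prod.swap Prod.swap_injective ?_ h
  rintro ⟨a, b⟩ ⟨c, d⟩ ⟨h1, h2, h3⟩
  refine ⟨?_, h3, h2⟩
  intro heq
  apply h1
  simp only [Prod.swap, Prod.mk.injEq] at heq
  exact Prod.ext heq.2 heq.1

/-- **strong products** of connected graphs with at least `n` vertices have a clique minor of order
`⌈n / 3⌉` -/
theorem strong_minor {V W : Type} [Finite V] [Finite W] (G : SimpleGraph V) (H : SimpleGraph W)
    (hG : G.Connected) (hH : H.Connected) {n : ℕ} (hn : 2 ≤ n) (hV : n ≤ Nat.card V)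
    (hW : n ≤ Nat.card W) : CMt (strong G H) (Fin ((n + 2) / 3)) := by
  classical
  have := Fintype.ofFinite V
  have := Fintype.ofFinite W
  set t := (n + 2) / 3 with ht
  -- the two cases for one graph
  have two : ∀ (U : Type) [Fintype U] (F : SimpleGraph U), F.Connected → n ≤ Nat.card U →
      (∃ m : Fin t × Bool → U, Function.Injective m ∧
        ∀ i, F.Adj (m (i, false)) (m (i, true))) ∨
      ∃ (S : Set U) (g : Fin t → U), (F.induce S).Connected ∧ Function.Injective g ∧
        (∀ i, g i ∉ S) ∧ ∀ i, ∃ s ∈ S, F.Adj (g i) s := by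
    intro U _ F hF hU
    obtain ⟨j, m, h1, h2, h3, h4⟩ := exists_matched F hF (hn.trans hU)
    rcases Nat.lt_or_ge j t with hjt | hjt
    · right
      have hc : t ≤ Fintype.card {x // x ∉ Set.range m} := by
        rw [Fintype.card_subtype_compl, ← Nat.card_eq_fintype_card]
        have : Fintype.card {x // x ∈ Set.range m} = j * 2 := by
          have := Set.card_range_of_injective h1
          rw [Fintype.card_prod, Fintype.card_fin, Fintype.card_bool] at this
          rw [← this]
        rw [this]
        omega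
      have : Nonempty (Fin t ↪ {x // x ∉ Set.range m}) := by
        apply Function.Embedding.nonempty_of_card_le
        simpa using hc
      obtain ⟨e⟩ := this
      exact ⟨Set.range m, fun i => (e i).1, h3, fun a b hab => e.injective (Subtype.ext hab),
        fun i => (e i).2, fun i => h4 _ (e i).2⟩
    · left
      refine ⟨fun p => m (⟨p.1.1, by omega⟩, p.2), ?_, fun i => h2 _⟩
      rintro ⟨a, b⟩ ⟨c, d⟩ hab
      have := h1 hab
      rw [Prod.mk.injEq, Fin.mk.injEq] at this
      exact Prod.ext (Fin.ext this.1) this.2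
  have emb : ∀ (U : Type) [Fintype U], n ≤ Nat.card U → ∃ h : Fin t → U, Function.Injective h := by
    intro U _ hU
    rw [Nat.card_eq_fintype_card] at hU
    have : Nonempty (Fin t ↪ U) := by
      apply Function.Embedding.nonempty_of_card_le
      rw [Fintype.card_fin]
      omega
    obtain ⟨e⟩ := this
    exact ⟨e, e.injective⟩
  rcases two V G hG hV with ⟨m, m1, m2⟩ | ⟨S, g, g1, g2, g3, g4⟩
  · rcases two W H hH hW with ⟨m', m1', m2'⟩ | ⟨S, g, g1, g2, g3, g4⟩
    · exact matchy G H hG hH m m1 m2 m' m1' m2'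
    · obtain ⟨h, hh⟩ := emb V hV
      exact strong_swap (leafy H G hG S g1 g g2 g3 g4 h hh)
  · obtain ⟨h, hh⟩ := emb W hW
    exact leafy G H hH S g1 g g2 g3 g4 h hh

theorem strong_colorable {V W : Type} {G : SimpleGraph V} {H : SimpleGraph W} {a b : ℕ}
    (hG : G.Colorable a) (hH : H.Colorable b) : (strong G H).Colorable (a * b) := by
  refine (lex_colorable hG hH).mono_left ?_
  intro x y hxy
  obtain ⟨h1, h2 | h2, h3 | h3⟩ := hxy
  · exact absurd (Prod.ext h2 h3) h1
  · exact Or.inr ⟨h2, h3⟩
  · exact Or.inl h2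
  · exact Or.inl h2

theorem strong_had {V W : Type} [Finite V] [Finite W] (G : SimpleGraph V) (H : SimpleGraph W)
    (hG : G.Connected) (hH : H.Connected) {a b : ℕ} (ha : G.Colorable a) (hb : H.Colorable b)
    (hV : 3 * (a * b) ≤ Nat.card V + 2) (hW : 3 * (a * b) ≤ Nat.card W + 2) :
    Had (strong G H) := by
  intro k hk
  have hkab : k < a * b := by
    by_contra hlt
    push Not at hlt
    exact hk ((strong_colorable ha hb).mono hlt)
  have hne : Nonempty V := hG.nonempty
  have hne' : Nonempty W := hH.nonempty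
  rcases Nat.lt_or_ge (a * b) 2 with h2 | h2
  · have hk0 : k = 0 := by omega
    subst hk0
    have : Nonempty (V × W) := inferInstance
    obtain ⟨x⟩ := this
    refine ⟨fun _ => {x}, fun _ => conn_singleton _ _, ?_, ?_⟩
    · intro i j hij
      exact absurd (Fin.ext (by omega)) hij
    · intro i j hij
      exact absurd (Fin.ext (by omega)) hij
  · refine mono_minor (strong_minor G H hG hH (n := 3 * (a * b) - 2) (by omega) (by omega)
      (by omega)) ?_
    omega

end Pool.Agent.K4H13.GP
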